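import Pool.Agent.Helper90.MM.MomBlocksOf
import Pool.Agent.Helper11.MM.Dil

/-!
# MM, block M6 `mom_blocks`: summation of the blocks in the norm of `L^(2J)`
-/

open MeasureTheory Real Set Filter Topology

set_option autoImplicit false

namespace Pool.Agent.Helper90.MM

open Pool.Agent.Helper22.AE
open Pool.Agent.Helper22.AC (cntc)
open Pool.Agent.Helper92.GC (dt sqa)
open Pool.Agent.Helper60.AD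
open Pool.Agent.Helper92.MM

theorem mom_blocks {L : ℕ} {H₀ : ℝ → ℝ} (h0 : ContDiff ℝ 2 H₀) (hp : Function.Periodic H₀ (2 * π)) {J : ℕ} (hJ : 1 ≤ J) {e2 u A : ℝ}
    (he2 : 0 < e2) (he2' : e2 ≤ 1 / 4) (hu : 0 < u) (hu1 : u ≤ 1) (hA : 0 ≤ A) {nT : ℕ} {C : ℝ} (hC : 0 ≤ C)
    (b : ℕ → Fin nT → ℝ → ℤ × ℤ → ℂ) (hb : ∀ n i α k, ‖b n i α k‖ ≤ 1) (hbc : ∀ n i k, Continuous (fun α => b n i α k))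
    (w : (Fin L → ℝ) × (Fin L → ℝ)) (hw : ∀ θ, 0 < Hw H₀ w θ + deriv (deriv (Hw H₀ w)) θ)
    (hty : ∀ (n : ℕ) (p : ℝ × ℝ) (R₀ R : ℝ), 1 ≤ R₀ →
        R ∈ Icc (R₀ / 2) (4 * R₀) → IsSupp (fun θ => R * (Hw H₀ w θ - (p.1 * cos θ + p.2 * sin θ))) → ∀ c : ℝ × ℝ, ∃ c' : ℝ × ℝ,
          ‖∑ k ∈ sqa (2 ^ n), ft (fun θ => R * (Hw H₀ w θ - (p.1 * cos θ + p.2 * sin θ))) k * ee (dt k c)‖ ≤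
            C * R₀ ^ (1 / 2 : ℝ) * ((2 : ℝ) ^ n) ^ (-(3 / 2) : ℝ) * (∑ i, ∑ r ∈ Finset.range 2,
              ∫ α in Icc (-π) π ∩ {α | 1 / 2 ≤ |cos α|}, k0 ((R₀ * 2 ^ n) ^ (-(1 / 2) : ℝ)) α *
                ‖Sc (Hw H₀ w) (blk (n + r)) (b n i α) R α c'‖) + C)
    {N₁ : ℕ} (hW : ∀ N : ℕ, N₁ ≤ N → ∀ n : ℕ, ∀ i, ∀ r < 2, (2 : ℝ) ^ (n + r) ≤ ((2 : ℝ) ^ N) ^ (1 / 2 + e2) →
      ∃ W : ℝ → ℝ, Continuous W ∧ (∀ R, 0 ≤ W R) ∧ (∀ R ∈ Icc ((2 : ℝ) ^ N / 2) (4 * 2 ^ N), ∀ c : ℝ × ℝ,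
        (∫ α in gd1, k0 (((2 : ℝ) ^ N * 2 ^ n) ^ (-(1 / 2) : ℝ)) α * ‖Sc (Hw H₀ w) (blk (n + r)) (b n i α) R α c‖) ^ (2 * J) ≤ W R) ∧
        ∫ R in Icc ((2 : ℝ) ^ N / 2) (4 * 2 ^ N), W R ≤ A * 2 ^ N * ((2 : ℝ) ^ (n + r)) ^ (3 * J - u : ℝ)) :
    ∃ C' : ℝ, ∀ X : ℝ, 1 ≤ X → mom J (Hw H₀ w) X ≤ ENNReal.ofReal (C' * X ^ (1 + J)) :=
  mom_blocks_of (fun hH _ _ h0 h1 h2 => Pool.Agent.Helper11.MM.dil_blocks_pt hH h0 h1 h2) h0 hp hJ he2 he2' hu hu1 hA hC b hb hbc w hw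
    hty hW

end Pool.Agent.Helper90.MM
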