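import Pool.Agent.Helper92.MM.Defs
import Pool.Agent.Helper60.AD.Defs
import Pool.Agent.Helper11.AD.Small

/-!
# MM, block M6: summation of the blocks in the norm of `L^(2J)` (from the statement of M5)
-/

open MeasureTheory Real Set Filter Topology

set_option autoImplicit false

namespace Pool.Agent.Helper90.MM

open Pool.Agent.Helper22.AE
open Pool.Agent.Helper22.AC (cntc)
open Pool.Agent.Helper92.GC (dt sqa)
open Pool.Agent.Helper60.AD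
open Pool.Agent.Helper92.MM

/-- the statement of M5 (`dil_blocks_pt`) -/
def DilPt : Prop := ∀ {H : ℝ → ℝ}, IsSupp H → ∀ {τ e2 : ℝ}, 0 < τ → τ < 1 → 0 < e2 →
    ∃ C R₁ : ℝ, 0 < R₁ ∧ ∀ R₀ : ℝ, R₁ ≤ R₀ → ∃ d : ℝ, 0 ≤ d ∧ d ≤ R₀ / 2 ∧ ∀ n1 : ℕ, R₀ ^ (τ + e2) ≤ 2 ^ n1 → ∀ B : ℕ → ℝ → ℝ,
      (∀ n < n1, ∀ r ∈ Icc (R₀ / 2) (4 * R₀), ∀ c' : ℝ × ℝ, ‖∑ k ∈ sqa (2 ^ n), ft (fun θ => r * H θ) k * ee (dt k c')‖ ≤ B n r) →
      ∀ R ∈ Icc R₀ (2 * R₀), ∀ c : ℝ × ℝ,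
        |cntc H c R - area H * R ^ 2| ≤ C * R₀ ^ (1 - τ) + ∑ n ∈ Finset.range n1, (B n (R + d) + B n (R - d))

private lemma pow_ex6 (x : ℝ) : ∃ n : ℕ, x ≤ 2 ^ n := by
  obtain ⟨n, hn⟩ := pow_unbounded_of_one_lt x one_lt_two
  exact ⟨n, hn.le⟩

/-- a multiple of a support function -/
private lemma supp_mul6 {H : ℝ → ℝ} (hH : IsSupp H) {r : ℝ} (hr : 0 < r) : IsSupp (fun θ => r * H θ) := by
  have e : deriv (deriv (fun θ => r * H θ)) = fun θ => r * deriv (deriv H) θ := by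
    have e1 : deriv (fun θ => r * H θ) = fun θ => r * deriv H θ := by
      funext θ
      rw [deriv_const_mul_field]
    rw [e1]
    funext θ
    rw [deriv_const_mul_field]
  refine ⟨contDiff_const.mul hH.smooth, fun θ => ?_, fun θ => mul_pos hr (hH.pos θ), fun θ => ?_⟩
  · show r * H (θ + 2 * π) = r * H θ
    rw [hH.per θ]
  · rw [e]
    show 0 < r * H θ + r * deriv (deriv H) θ
    rw [← mul_add]
    exact mul_pos hr (hH.rho_pos θ)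

/-- logarithm against the square root -/
private lemma nat_le6 (N : ℕ) : (N : ℝ) ≤ 2 / log 2 * ((2 : ℝ) ^ N) ^ (1 / 2 : ℝ) := by
  have hl : 0 < log 2 := Real.log_pos (by norm_num)
  have h1 : ((2 : ℝ) ^ N) ^ (1 / 2 : ℝ) = exp (N * (log 2 * (1 / 2))) := by
    rw [← Real.rpow_natCast, ← Real.rpow_mul (by norm_num), Real.rpow_def_of_pos (by norm_num)]
    congr 1
    ring
  have h2 := Real.add_one_le_exp (N * (log 2 * (1 / 2)))
  rw [h1]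
  have h3 : (N : ℝ) = 2 / log 2 * (N * (log 2 * (1 / 2))) := by
    field_simp
  calc (N : ℝ) = 2 / log 2 * (N * (log 2 * (1 / 2))) := h3
    _ ≤ _ := mul_le_mul_of_nonneg_left (by linarith) (by positivity)

/-- Jensen with weights -/
private lemma wsum_pow {ι : Type*} (s : Finset ι) (l z : ι → ℝ) (hl : ∀ i ∈ s, 0 ≤ l i) (hz : ∀ i ∈ s, 0 ≤ z i) (n : ℕ) :
    (∑ i ∈ s, l i * z i) ^ (n + 1) ≤ (∑ i ∈ s, l i) ^ n * ∑ i ∈ s, l i * z i ^ (n + 1) := by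
  set Λ := ∑ i ∈ s, l i with hΛ
  have hΛ0 : 0 ≤ Λ := Finset.sum_nonneg hl
  rcases hΛ0.eq_or_lt with h | h
  · have h1 : ∀ i ∈ s, l i = 0 := (Finset.sum_eq_zero_iff_of_nonneg hl).1 h.symm
    have h2 : ∑ i ∈ s, l i * z i = 0 := Finset.sum_eq_zero fun i hi => by rw [h1 i hi, zero_mul]
    have h3 : ∑ i ∈ s, l i * z i ^ (n + 1) = 0 := Finset.sum_eq_zero fun i hi => by rw [h1 i hi, zero_mul]
    rw [h2, h3, mul_zero, zero_pow (by omega)]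
  · have h1 := Real.pow_arith_mean_le_arith_mean_pow s (fun i => l i / Λ) z (fun i hi => div_nonneg (hl i hi) hΛ0)
      (by rw [← Finset.sum_div, ← hΛ, div_self h.ne']) hz (n + 1)
    have h2 : ∑ i ∈ s, l i / Λ * z i = (∑ i ∈ s, l i * z i) / Λ := by
      rw [Finset.sum_div]
      exact Finset.sum_congr rfl fun i _ => by ring
    have h3 : ∑ i ∈ s, l i / Λ * z i ^ (n + 1) = (∑ i ∈ s, l i * z i ^ (n + 1)) / Λ := by
      rw [Finset.sum_div]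
      exact Finset.sum_congr rfl fun i _ => by ring
    rw [h2, h3, div_pow, div_le_div_iff₀ (by positivity) h] at h1
    have h4 : (∑ i ∈ s, l i * z i) ^ (n + 1) * Λ ≤ (Λ ^ n * ∑ i ∈ s, l i * z i ^ (n + 1)) * Λ := by
      calc _ ≤ _ := h1
        _ = _ := by rw [pow_succ]; ring
    exact le_of_mul_le_mul_right h4 h

private lemma geo_sum {q : ℝ} (hq0 : 0 ≤ q) (hq : q < 1) (N : ℕ) : ∑ n ∈ Finset.range N, q ^ n ≤ (1 - q)⁻¹ :=
  (Summable.sum_le_tsum _ (fun _ _ => pow_nonneg hq0 _) (summable_geometric_of_lt_one hq0 hq)).trans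
    (tsum_geometric_of_lt_one hq0 hq).le

/-- the power of a term -/
private lemma term_pow {J : ℕ} (hJ : 1 ≤ J) {x u W : ℝ} (hx : 0 < x) (hW : 0 ≤ W) :
    (x ^ (-(3 / 2) + u / (4 * J) : ℝ) * W ^ ((1 : ℝ) / (2 * J))) ^ (2 * J) = x ^ (-(3 * J) + u / 2 : ℝ) * W := by
  have hJ0 : (J : ℝ) ≠ 0 := by
    have : (1 : ℝ) ≤ J := by exact_mod_cast hJ
    positivity
  rw [mul_pow, ← Real.rpow_natCast, ← Real.rpow_natCast, ← Real.rpow_mul hx.le, ← Real.rpow_mul hW]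
  push_cast
  congr 1
  · congr 1
    field_simp
    ring
  · have e : (1 : ℝ) / (2 * J) * (2 * J) = 1 := by field_simp
    rw [e, Real.rpow_one]

private lemma root_le {J : ℕ} (hJ : 1 ≤ J) {y W : ℝ} (hy : 0 ≤ y) (h : y ^ (2 * J) ≤ W) : y ≤ W ^ ((1 : ℝ) / (2 * J)) := by
  have hJ0 : (J : ℝ) ≠ 0 := by
    have : (1 : ℝ) ≤ J := by exact_mod_cast hJ
    positivity
  have h1 : y = (y ^ (2 * J)) ^ ((1 : ℝ) / (2 * J)) := by
    rw [← Real.rpow_natCast, ← Real.rpow_mul hy]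
    push_cast
    have e : (2 * (J : ℝ)) * (1 / (2 * J)) = 1 := by field_simp
    rw [e, Real.rpow_one]
  rw [h1]
  exact Real.rpow_le_rpow (by positivity) h (by positivity)

private lemma shift_int {W : ℝ → ℝ} (hWc : Continuous W) (hW0 : ∀ R, 0 ≤ W R) {a b a' b' d : ℝ} (hab : a ≤ b) (h1 : a' ≤ a + d)
    (h2 : b + d ≤ b') : ∫ R in Icc a b, W (R + d) ≤ ∫ R in Icc a' b', W R := by
  rw [integral_Icc_eq_integral_Ioc, ← intervalIntegral.integral_of_le hab, intervalIntegral.integral_comp_add_right,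
    intervalIntegral.integral_of_le (by linarith), ← integral_Icc_eq_integral_Ioc]
  exact setIntegral_mono_set (hWc.continuousOn.integrableOn_compact isCompact_Icc) (ae_of_all _ hW0)
    (Icc_subset_Icc h1 h2).eventuallyLE

/-- the power of the block size against the moment of the block -/
private lemma size_le {J : ℕ} (hJ : 1 ≤ J) {u A R₀ V : ℝ} (hu : 0 < u) (hu1 : u ≤ 1) (hA : 0 ≤ A) (hR₀ : 0 ≤ R₀) {n r : ℕ} (hr : r < 2)
    (h : V ≤ A * R₀ * ((2 : ℝ) ^ (n + r)) ^ (3 * J - u : ℝ)) :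
    ((2 : ℝ) ^ n) ^ (-(3 * J) + u / 2 : ℝ) * V ≤ A * R₀ * 8 ^ J := by
  have hJ1 : (1 : ℝ) ≤ J := by exact_mod_cast hJ
  have hK : (0 : ℝ) < 2 ^ n := by positivity
  have hK1 : (1 : ℝ) ≤ 2 ^ n := one_le_pow₀ (by norm_num)
  have hr2 : (2 : ℝ) ^ (n + r) ≤ 2 * 2 ^ n := by
    rw [pow_add]
    have : (2 : ℝ) ^ r ≤ 2 ^ 1 := pow_le_pow_right₀ (by norm_num) (by omega)
    nlinarith
  have h1 : ((2 : ℝ) ^ (n + r)) ^ (3 * J - u : ℝ) ≤ 8 ^ J * ((2 : ℝ) ^ n) ^ (3 * J - u : ℝ) := by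
    calc ((2 : ℝ) ^ (n + r)) ^ (3 * J - u : ℝ) ≤ (2 * 2 ^ n) ^ (3 * J - u : ℝ) :=
          Real.rpow_le_rpow (by positivity) hr2 (by linarith)
      _ = 2 ^ (3 * J - u : ℝ) * ((2 : ℝ) ^ n) ^ (3 * J - u : ℝ) := Real.mul_rpow (by norm_num) hK.le
      _ ≤ 8 ^ J * ((2 : ℝ) ^ n) ^ (3 * J - u : ℝ) := by
        refine mul_le_mul_of_nonneg_right ?_ (by positivity)
        calc (2 : ℝ) ^ (3 * J - u : ℝ) ≤ 2 ^ (3 * J : ℝ) := Real.rpow_le_rpow_of_exponent_le (by norm_num) (by linarith)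
          _ = 8 ^ J := by
            have e : (3 * J : ℝ) = ((3 * J : ℕ) : ℝ) := by push_cast; ring
            rw [e, Real.rpow_natCast, pow_mul]
            norm_num
  have h2 : ((2 : ℝ) ^ n) ^ (-(3 * J) + u / 2 : ℝ) * ((2 : ℝ) ^ n) ^ (3 * J - u : ℝ) ≤ 1 := by
    rw [← Real.rpow_add hK]
    exact Real.rpow_le_one_of_one_le_of_nonpos hK1 (by linarith)
  calc ((2 : ℝ) ^ n) ^ (-(3 * J) + u / 2 : ℝ) * V
      ≤ ((2 : ℝ) ^ n) ^ (-(3 * J) + u / 2 : ℝ) * (A * R₀ * (8 ^ J * ((2 : ℝ) ^ n) ^ (3 * J - u : ℝ))) :=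
        mul_le_mul_of_nonneg_left (h.trans (mul_le_mul_of_nonneg_left h1 (by positivity))) (by positivity)
    _ = A * R₀ * 8 ^ J * (((2 : ℝ) ^ n) ^ (-(3 * J) + u / 2 : ℝ) * ((2 : ℝ) ^ n) ^ (3 * J - u : ℝ)) := by ring
    _ ≤ A * R₀ * 8 ^ J * 1 := mul_le_mul_of_nonneg_left h2 (by positivity)
    _ = _ := mul_one _

/-- the abstract summation: blocks bounded by roots of continuous functions with small integrals -/
private lemma core {J : ℕ} (hJ : 1 ≤ J) {u A C K₁ : ℝ} (hu : 0 < u) (hu1 : u ≤ 1) (hA : 0 ≤ A) (hC : 0 ≤ C) (hK₁ : 0 ≤ K₁)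
    (nT : ℕ) {q : ℝ} (hq : q = (2 : ℝ) ^ (-(u / (4 * J)) : ℝ)) (R₀ : ℝ) (hR₀ : 1 ≤ R₀) (d : ℝ) (hd0 : 0 ≤ d) (hd : d ≤ R₀ / 2) (n1 : ℕ)
    (W : ℕ → Fin nT → ℕ → ℝ → ℝ) (hWc : ∀ n i r, Continuous (W n i r)) (hW0 : ∀ n i r R, 0 ≤ W n i r R)
    (hWi : ∀ n < n1, ∀ i, ∀ r < 2, ∫ R in Icc (R₀ / 2) (4 * R₀), W n i r R ≤ A * R₀ * ((2 : ℝ) ^ (n + r)) ^ (3 * J - u : ℝ))
    (f : ℝ → (ℝ × ℝ) → ℝ) (hf0 : ∀ R c, 0 ≤ f R c)
    (hf : ∀ R ∈ Icc R₀ (2 * R₀), ∀ c : ℝ × ℝ, f R c ≤ R₀ ^ (1 / 2 : ℝ) * (K₁ + C * ((∑ n ∈ Finset.range n1, ∑ i, ∑ r ∈ Finset.range 2,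
        ((2 : ℝ) ^ n) ^ (-(3 / 2) : ℝ) * W n i r (R + d) ^ ((1 : ℝ) / (2 * J))) +
      ∑ n ∈ Finset.range n1, ∑ i, ∑ r ∈ Finset.range 2, ((2 : ℝ) ^ n) ^ (-(3 / 2) : ℝ) * W n i r (R - d) ^ ((1 : ℝ) / (2 * J))))) :
    ∫⁻ R in Icc R₀ (2 * R₀), ⨆ c : ℝ × ℝ, ENNReal.ofReal (f R c ^ (2 * J)) ≤
      ENNReal.ofReal (2 ^ (2 * J - 1) * (K₁ ^ (2 * J) + 2 ^ (2 * J - 1) * C ^ (2 * J) *
        ((2 * nT * (1 - q)⁻¹) ^ (2 * J - 1) * (2 * nT * (1 - q)⁻¹ * (2 * (A * 8 ^ J))))) * R₀ ^ (1 + J)) := by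
  classical
  have hJ1 : (1 : ℝ) ≤ J := by exact_mod_cast hJ
  have hq0 : 0 < q := by rw [hq]; positivity
  have hq1 : q < 1 := by
    rw [hq]
    exact Real.rpow_lt_one_of_one_lt_of_neg (by norm_num) (by
      have : 0 < u / (4 * J) := by positivity
      linarith)
  have hR0 : 0 < R₀ := by linarith
  set s : Finset (ℕ × (Fin nT × ℕ)) := Finset.range n1 ×ˢ (Finset.univ ×ˢ Finset.range 2) with hs
  set l : ℕ × (Fin nT × ℕ) → ℝ := fun j => q ^ j.1 with hl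
  set z : ℝ → ℕ × (Fin nT × ℕ) → ℝ := fun ρ j => ((2 : ℝ) ^ j.1) ^ (-(3 / 2) + u / (4 * J) : ℝ) *
    W j.1 j.2.1 j.2.2 ρ ^ ((1 : ℝ) / (2 * J)) with hz
  have hl0 : ∀ j ∈ s, 0 ≤ l j := fun j _ => pow_nonneg hq0.le _
  have hz0 : ∀ ρ, ∀ j ∈ s, 0 ≤ z ρ j := fun ρ j _ => mul_nonneg (by positivity) (Real.rpow_nonneg (hW0 _ _ _ _) _)
  have hqn : ∀ n : ℕ, q ^ n = ((2 : ℝ) ^ n) ^ (-(u / (4 * J)) : ℝ) := by
    intro n
    rw [hq, ← Real.rpow_natCast, ← Real.rpow_natCast, ← Real.rpow_mul (by norm_num), ← Real.rpow_mul (by norm_num)]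
    congr 1
    ring
  have hsum : ∀ ρ : ℝ, ∑ n ∈ Finset.range n1, ∑ i, ∑ r ∈ Finset.range 2,
      ((2 : ℝ) ^ n) ^ (-(3 / 2) : ℝ) * W n i r ρ ^ ((1 : ℝ) / (2 * J)) = ∑ j ∈ s, l j * z ρ j := by
    intro ρ
    rw [hs, Finset.sum_product]
    refine Finset.sum_congr rfl fun n _ => ?_
    rw [Finset.sum_product]
    refine Finset.sum_congr rfl fun i _ => Finset.sum_congr rfl fun r _ => ?_
    simp only [hl, hz]
    rw [hqn, ← mul_assoc, ← Real.rpow_add (by positivity)]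
    congr 2
    ring
  set Λ : ℝ := 2 * nT * (1 - q)⁻¹ with hΛ
  have hqi : 0 ≤ (1 - q)⁻¹ := inv_nonneg.2 (by linarith)
  have hΛ0 : 0 ≤ Λ := by positivity
  have hlsum : ∑ j ∈ s, l j ≤ Λ := by
    rw [hs, Finset.sum_product]
    have h1 : ∀ n ∈ Finset.range n1, ∑ y ∈ (Finset.univ : Finset (Fin nT)) ×ˢ Finset.range 2, l (n, y) = 2 * nT * q ^ n := by
      intro n _
      simp only [hl]
      rw [Finset.sum_const, Finset.card_product, Finset.card_univ, Fintype.card_fin, Finset.card_range, nsmul_eq_mul]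
      push_cast
      ring
    rw [Finset.sum_congr rfl h1, ← Finset.mul_sum]
    exact mul_le_mul_of_nonneg_left (geo_sum hq0.le hq1 n1) (by positivity)
  obtain ⟨m, hm⟩ : ∃ m, 2 * J = m + 1 := ⟨2 * J - 1, by omega⟩
  have hm1 : 2 * J - 1 = m := by omega
  have hpow : ∀ ρ : ℝ, (∑ j ∈ s, l j * z ρ j) ^ (2 * J) ≤
      Λ ^ m * ∑ j ∈ s, l j * (((2 : ℝ) ^ j.1) ^ (-(3 * J) + u / 2 : ℝ) * W j.1 j.2.1 j.2.2 ρ) := by
    intro ρ
    have h1 := wsum_pow s l (z ρ) hl0 (hz0 ρ) m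
    rw [← hm] at h1
    have h2 : ∑ j ∈ s, l j * z ρ j ^ (2 * J) =
        ∑ j ∈ s, l j * (((2 : ℝ) ^ j.1) ^ (-(3 * J) + u / 2 : ℝ) * W j.1 j.2.1 j.2.2 ρ) := by
      refine Finset.sum_congr rfl fun j _ => ?_
      simp only [hz]
      rw [term_pow hJ (by positivity) (hW0 _ _ _ _)]
    rw [h2] at h1
    refine h1.trans (mul_le_mul_of_nonneg_right (pow_le_pow_left₀ (Finset.sum_nonneg hl0) hlsum m) ?_)
    exact Finset.sum_nonneg fun j hj => mul_nonneg (hl0 j hj) (mul_nonneg (by positivity) (hW0 _ _ _ _))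
  set T : ℝ → ℝ := fun ρ => ∑ j ∈ s, l j * (((2 : ℝ) ^ j.1) ^ (-(3 * J) + u / 2 : ℝ) * W j.1 j.2.1 j.2.2 ρ) with hT
  have hT0 : ∀ ρ, 0 ≤ T ρ := fun ρ => Finset.sum_nonneg fun j hj =>
    mul_nonneg (hl0 j hj) (mul_nonneg (by positivity) (hW0 _ _ _ _))
  have hTc : Continuous T := by
    simp only [hT]
    exact continuous_finsetSum _ fun j _ => continuous_const.mul (continuous_const.mul (hWc _ _ _))
  have hTi : ∀ d' : ℝ, |d'| ≤ R₀ / 2 → ∫ R in Icc R₀ (2 * R₀), T (R + d') ≤ Λ * (A * R₀ * 8 ^ J) := by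
    intro d' hd'
    obtain ⟨hd1, hd2⟩ := abs_le.1 hd'
    have h1 : ∫ R in Icc R₀ (2 * R₀), T (R + d') ≤ ∫ R in Icc (R₀ / 2) (4 * R₀), T R :=
      shift_int hTc hT0 (by linarith) (by linarith) (by linarith)
    refine h1.trans ?_
    simp only [hT]
    have hint : ∀ j ∈ s, Integrable (fun R => l j * (((2 : ℝ) ^ j.1) ^ (-(3 * J) + u / 2 : ℝ) * W j.1 j.2.1 j.2.2 R))
        (volume.restrict (Icc (R₀ / 2) (4 * R₀))) := fun j _ =>
      (continuous_const.mul (continuous_const.mul (hWc _ _ _))).continuousOn.integrableOn_compact isCompact_Icc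
    rw [integral_finsetSum _ hint]
    have h2 : ∀ j ∈ s, ∫ R in Icc (R₀ / 2) (4 * R₀), l j * (((2 : ℝ) ^ j.1) ^ (-(3 * J) + u / 2 : ℝ) * W j.1 j.2.1 j.2.2 R) ≤
        l j * (A * R₀ * 8 ^ J) := by
      intro j hj
      rw [integral_const_mul, integral_const_mul]
      rw [hs, Finset.mem_product, Finset.mem_product, Finset.mem_range, Finset.mem_range] at hj
      exact mul_le_mul_of_nonneg_left (size_le hJ hu hu1 hA hR0.le hj.2.2 (hWi _ hj.1 _ _ hj.2.2)) (pow_nonneg hq0.le _)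
    refine (Finset.sum_le_sum h2).trans ?_
    rw [← Finset.sum_mul]
    exact mul_le_mul_of_nonneg_right hlsum (by positivity)
  set G : ℝ → ℝ := fun R => R₀ ^ J * (2 ^ m * (K₁ ^ (2 * J) + 2 ^ m * (C ^ (2 * J) * (Λ ^ m * T (R + d)) +
    C ^ (2 * J) * (Λ ^ m * T (R + -d))))) with hG
  have hG0 : ∀ R, 0 ≤ G R := by
    intro R
    have h1 := hT0 (R + d)
    have h2 := hT0 (R + -d)
    simp only [hG]
    positivity
  have hGc : Continuous G := by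
    simp only [hG]
    have h1 : Continuous fun R => T (R + d) := hTc.comp (by fun_prop)
    have h2 : Continuous fun R => T (R + -d) := hTc.comp (by fun_prop)
    fun_prop
  have hfG : ∀ R ∈ Icc R₀ (2 * R₀), ∀ c : ℝ × ℝ, f R c ^ (2 * J) ≤ G R := by
    intro R hR c
    have h1 := hf R hR c
    rw [hsum, hsum] at h1
    have hx0 : 0 ≤ ∑ j ∈ s, l j * z (R + d) j := Finset.sum_nonneg fun j hj => mul_nonneg (hl0 j hj) (hz0 _ j hj)
    have hy0 : 0 ≤ ∑ j ∈ s, l j * z (R - d) j := Finset.sum_nonneg fun j hj => mul_nonneg (hl0 j hj) (hz0 _ j hj)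
    have h2 : f R c ^ (2 * J) ≤ (R₀ ^ (1 / 2 : ℝ) * (K₁ + (C * (∑ j ∈ s, l j * z (R + d) j) + C * ∑ j ∈ s, l j * z (R - d) j))) ^ (2 * J) := by
      refine pow_le_pow_left₀ (hf0 R c) (h1.trans (le_of_eq (by ring))) _
    refine h2.trans ?_
    have e1 : (R₀ ^ (1 / 2 : ℝ)) ^ (2 * J) = R₀ ^ J := by
      rw [pow_mul, ← Real.rpow_natCast (R₀ ^ (1 / 2 : ℝ)) 2, ← Real.rpow_mul hR0.le]
      norm_num
    rw [mul_pow, e1]
    refine mul_le_mul_of_nonneg_left ?_ (by positivity)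
    have h3 := add_pow_le hK₁ (add_nonneg (mul_nonneg hC hx0) (mul_nonneg hC hy0)) (2 * J)
    have h4 := add_pow_le (mul_nonneg hC hx0) (mul_nonneg hC hy0) (2 * J)
    rw [hm1] at h3 h4
    refine h3.trans (mul_le_mul_of_nonneg_left ?_ (by positivity))
    refine add_le_add le_rfl (h4.trans (mul_le_mul_of_nonneg_left ?_ (by positivity)))
    rw [mul_pow, mul_pow]
    have h5 := hpow (R + d)
    have h6 := hpow (R - d)
    rw [← sub_eq_add_neg]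
    exact add_le_add (mul_le_mul_of_nonneg_left h5 (by positivity)) (mul_le_mul_of_nonneg_left h6 (by positivity))
  have hstep : ∫⁻ R in Icc R₀ (2 * R₀), ⨆ c : ℝ × ℝ, ENNReal.ofReal (f R c ^ (2 * J)) ≤
      ∫⁻ R in Icc R₀ (2 * R₀), ENNReal.ofReal (G R) := by
    refine setLIntegral_mono' measurableSet_Icc fun R hR => ?_
    exact iSup_le fun c => ENNReal.ofReal_le_ofReal (hfG R hR c)
  refine hstep.trans ?_
  have hGi : Integrable G (volume.restrict (Icc R₀ (2 * R₀))) := hGc.continuousOn.integrableOn_compact isCompact_Icc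
  rw [← ofReal_integral_eq_lintegral_ofReal hGi (ae_of_all _ hG0)]
  apply ENNReal.ofReal_le_ofReal
  have hc1 : Continuous fun R => T (R + d) := hTc.comp (by fun_prop)
  have hc2 : Continuous fun R => T (R + -d) := hTc.comp (by fun_prop)
  have hi1 : IntegrableOn (fun R => C ^ (2 * J) * (Λ ^ m * T (R + d))) (Icc R₀ (2 * R₀)) :=
    (continuous_const.mul (continuous_const.mul hc1)).continuousOn.integrableOn_compact isCompact_Icc
  have hi2 : IntegrableOn (fun R => C ^ (2 * J) * (Λ ^ m * T (R + -d))) (Icc R₀ (2 * R₀)) :=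
    (continuous_const.mul (continuous_const.mul hc2)).continuousOn.integrableOn_compact isCompact_Icc
  have hi3 : IntegrableOn (fun R => 2 ^ m * (C ^ (2 * J) * (Λ ^ m * T (R + d)) + C ^ (2 * J) * (Λ ^ m * T (R + -d))))
      (Icc R₀ (2 * R₀)) :=
    (continuous_const.mul ((continuous_const.mul (continuous_const.mul hc1)).add
      (continuous_const.mul (continuous_const.mul hc2)))).continuousOn.integrableOn_compact isCompact_Icc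
  have hvol : (volume.restrict (Icc R₀ (2 * R₀))).real univ = R₀ := by
    rw [measureReal_restrict_apply_univ, Measure.real, Real.volume_Icc, ENNReal.toReal_ofReal (by linarith)]
    ring
  have hGint : ∫ R in Icc R₀ (2 * R₀), G R = R₀ ^ J * (2 ^ m * (K₁ ^ (2 * J) * R₀ + 2 ^ m * (C ^ (2 * J) * (Λ ^ m *
      ∫ R in Icc R₀ (2 * R₀), T (R + d)) + C ^ (2 * J) * (Λ ^ m * ∫ R in Icc R₀ (2 * R₀), T (R + -d))))) := by
    simp only [hG]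
    rw [integral_const_mul, integral_const_mul, integral_add (integrable_const _) hi3, integral_const_mul,
      integral_add hi1 hi2, integral_const_mul, integral_const_mul, integral_const_mul, integral_const_mul, integral_const, hvol,
      smul_eq_mul]
    ring
  rw [hGint]
  have h7 := hTi d (by rw [abs_of_nonneg hd0]; exact hd)
  have h8 := hTi (-d) (by rw [abs_neg, abs_of_nonneg hd0]; exact hd)
  have h9 : C ^ (2 * J) * (Λ ^ m * ∫ R in Icc R₀ (2 * R₀), T (R + d)) + C ^ (2 * J) * (Λ ^ m * ∫ R in Icc R₀ (2 * R₀), T (R + -d)) ≤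
      C ^ (2 * J) * (Λ ^ m * (Λ * (A * R₀ * 8 ^ J))) + C ^ (2 * J) * (Λ ^ m * (Λ * (A * R₀ * 8 ^ J))) := by
    gcongr
  calc R₀ ^ J * (2 ^ m * (K₁ ^ (2 * J) * R₀ + 2 ^ m * (C ^ (2 * J) * (Λ ^ m *
        ∫ R in Icc R₀ (2 * R₀), T (R + d)) + C ^ (2 * J) * (Λ ^ m * ∫ R in Icc R₀ (2 * R₀), T (R + -d)))))
      ≤ R₀ ^ J * (2 ^ m * (K₁ ^ (2 * J) * R₀ + 2 ^ m * (C ^ (2 * J) * (Λ ^ m * (Λ * (A * R₀ * 8 ^ J))) +
        C ^ (2 * J) * (Λ ^ m * (Λ * (A * R₀ * 8 ^ J)))))) := by gcongr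
    _ = _ := by
      rw [hm1]
      ring

private lemma Bsum (n1 : ℕ) (C E : ℝ) (S : ℕ → ℝ → ℝ) (a b : ℝ) :
    ∑ n ∈ Finset.range n1, ((C * E * S n a + C) + (C * E * S n b + C)) =
      E * (C * (∑ n ∈ Finset.range n1, S n a + ∑ n ∈ Finset.range n1, S n b)) + n1 * (2 * C) := by
  have h : ∀ n ∈ Finset.range n1, (C * E * S n a + C) + (C * E * S n b + C) = C * E * S n a + C * E * S n b + 2 * C := by
    intro n _
    ring
  rw [Finset.sum_congr rfl h, Finset.sum_add_distrib, Finset.sum_add_distrib, ← Finset.mul_sum, ← Finset.mul_sum, Finset.sum_const,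
    Finset.card_range, nsmul_eq_mul]
  ring

/-- M6 from the statement of M5 -/
theorem mom_blocks_of (hM5 : DilPt) {L : ℕ} {H₀ : ℝ → ℝ} (h0 : ContDiff ℝ 2 H₀) (hp : Function.Periodic H₀ (2 * π)) {J : ℕ} (hJ : 1 ≤ J)
    {e2 u A : ℝ}
    (he2 : 0 < e2) (he2' : e2 ≤ 1 / 4) (hu : 0 < u) (hu1 : u ≤ 1) (hA : 0 ≤ A) {nT : ℕ} {C : ℝ} (hC : 0 ≤ C)
    (b : ℕ → Fin nT → ℝ → ℤ × ℤ → ℂ) (_hb : ∀ n i α k, ‖b n i α k‖ ≤ 1) (_hbc : ∀ n i k, Continuous (fun α => b n i α k))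
    (w : (Fin L → ℝ) × (Fin L → ℝ)) (hw : ∀ θ, 0 < Hw H₀ w θ + deriv (deriv (Hw H₀ w)) θ)
    (hty : ∀ (n : ℕ) (p : ℝ × ℝ) (R₀ R : ℝ), 1 ≤ R₀ →
        R ∈ Icc (R₀ / 2) (4 * R₀) → IsSupp (fun θ => R * (Hw H₀ w θ - (p.1 * cos θ + p.2 * sin θ))) → ∀ c : ℝ × ℝ, ∃ c' : ℝ × ℝ,
          ‖∑ k ∈ sqa (2 ^ n), ft (fun θ => R * (Hw H₀ w θ - (p.1 * cos θ + p.2 * sin θ))) k * ee (dt k c)‖ ≤
            C * R₀ ^ (1 / 2 : ℝ) * ((2 : ℝ) ^ n) ^ (-(3 / 2) : ℝ) * (∑ i, ∑ r ∈ Finset.range 2,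
              ∫ α in Icc (-π) π ∩ {α | 1 / 2 ≤ |cos α|}, k0 ((R₀ * 2 ^ n) ^ (-(1 / 2) : ℝ)) α *
                ‖Sc (Hw H₀ w) (blk (n + r)) (b n i α) R α c'‖) + C)
    {N₁ : ℕ} (hW : ∀ N : ℕ, N₁ ≤ N → ∀ n : ℕ, ∀ i, ∀ r < 2, (2 : ℝ) ^ (n + r) ≤ ((2 : ℝ) ^ N) ^ (1 / 2 + e2) →
      ∃ W : ℝ → ℝ, Continuous W ∧ (∀ R, 0 ≤ W R) ∧ (∀ R ∈ Icc ((2 : ℝ) ^ N / 2) (4 * 2 ^ N), ∀ c : ℝ × ℝ,
        (∫ α in gd1, k0 (((2 : ℝ) ^ N * 2 ^ n) ^ (-(1 / 2) : ℝ)) α * ‖Sc (Hw H₀ w) (blk (n + r)) (b n i α) R α c‖) ^ (2 * J) ≤ W R) ∧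
        ∫ R in Icc ((2 : ℝ) ^ N / 2) (4 * 2 ^ N), W R ≤ A * 2 ^ N * ((2 : ℝ) ^ (n + r)) ^ (3 * J - u : ℝ)) :
    ∃ C' : ℝ, ∀ X : ℝ, 1 ≤ X → mom J (Hw H₀ w) X ≤ ENNReal.ofReal (C' * X ^ (1 + J)) := by
  classical
  have hS2 := Hw_smooth h0 w
  have hSp := Hw_per hp w
  obtain ⟨p, hH⟩ := Pool.Agent.Helper11.AD.exists_inner hS2 hSp hw
  obtain ⟨Cd, R₁, hR₁, hdil⟩ := hM5 hH (τ := 1 / 2) (e2 := e2 / 2) (by norm_num) (by norm_num) (by linarith)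
  obtain ⟨N₂, hN₂⟩ := pow_ex6 R₁
  obtain ⟨N₃, hN₃⟩ : ∃ N₃ : ℕ, 2 / e2 ≤ N₃ := exists_nat_ge _
  obtain ⟨Cs, hCs, hsmall⟩ := Pool.Agent.Helper11.AD.small_rad (Hw H₀ w) (2 ^ (N₁ + N₂ + N₃ + 1))
  have hl : 0 < log 2 := Real.log_pos (by norm_num)
  set q : ℝ := (2 : ℝ) ^ (-(u / (4 * J)) : ℝ) with hq
  set K₁ : ℝ := |Cd| + 2 * C * (2 / log 2) with hK₁
  have hK₁0 : 0 ≤ K₁ := by positivity
  set K₂ : ℝ := 2 ^ (2 * J - 1) * (K₁ ^ (2 * J) + 2 ^ (2 * J - 1) * C ^ (2 * J) *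
        ((2 * nT * (1 - q)⁻¹) ^ (2 * J - 1) * (2 * nT * (1 - q)⁻¹ * (2 * (A * 8 ^ J))))) with hK₂
  have hq1 : q < 1 := by
    rw [hq]
    exact Real.rpow_lt_one_of_one_lt_of_neg (by norm_num) (by
      have : (0 : ℝ) < J := by exact_mod_cast hJ
      have : 0 < u / (4 * J) := by positivity
      linarith)
  have hK₂0 : 0 ≤ K₂ := by
    have hqi : 0 ≤ (1 - q)⁻¹ := inv_nonneg.2 (by linarith)
    positivity
  have hbig : ∀ N : ℕ, N₁ + N₂ + N₃ ≤ N → mom J (Hw H₀ w) (2 ^ N) ≤ ENNReal.ofReal (K₂ * ((2 : ℝ) ^ N) ^ (1 + J)) := by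
    intro N hNN
    have hR1 : (1 : ℝ) ≤ 2 ^ N := one_le_pow₀ (by norm_num)
    have hR0 : (0 : ℝ) < 2 ^ N := by positivity
    have hexn : ∃ n : ℕ, ((2 : ℝ) ^ N) ^ (1 / 2 + e2 / 2) ≤ 2 ^ n := pow_ex6 _
    set n1 := Nat.find hexn with hn1
    have hn1s : ((2 : ℝ) ^ N) ^ (1 / 2 + e2 / 2) ≤ 2 ^ n1 := Nat.find_spec hexn
    have hn1N : n1 ≤ N := by
      apply Nat.find_min' hexn
      calc ((2 : ℝ) ^ N) ^ (1 / 2 + e2 / 2) ≤ ((2 : ℝ) ^ N) ^ (1 : ℝ) :=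
            Real.rpow_le_rpow_of_exponent_le hR1 (by linarith)
        _ = 2 ^ N := Real.rpow_one _
    have htwo : (2 : ℝ) ≤ ((2 : ℝ) ^ N) ^ (e2 / 2) := by
      rw [← Real.rpow_natCast, ← Real.rpow_mul (by norm_num)]
      have h1 : (1 : ℝ) ≤ N * (e2 / 2) := by
        have h2 : (N₃ : ℝ) ≤ N := by exact_mod_cast (by omega : N₃ ≤ N)
        have h3 : 2 / e2 ≤ N := hN₃.trans h2
        rw [div_le_iff₀ he2] at h3
        linarith
      calc (2 : ℝ) = 2 ^ (1 : ℝ) := (Real.rpow_one _).symm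
        _ ≤ _ := Real.rpow_le_rpow_of_exponent_le (by norm_num) h1
    have hbig : R₁ ≤ 2 ^ N := hN₂.trans (pow_le_pow_right₀ (by norm_num) (by omega))
    have hn2 : ∀ n < n1, (2 : ℝ) ^ n ≤ (2 ^ N) ^ (1 / 2 + e2 / 2) := by
      intro n hn
      have := Nat.find_min hexn hn
      rw [not_le] at this
      exact this.le
    have hnr : ∀ n < n1, ∀ r < 2, (2 : ℝ) ^ (n + r) ≤ ((2 : ℝ) ^ N) ^ (1 / 2 + e2) := by
      intro n hn r hr
      calc (2 : ℝ) ^ (n + r) ≤ 2 ^ (n + 1) := pow_le_pow_right₀ (by norm_num) (by omega)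
        _ = 2 * 2 ^ n := by rw [pow_succ]; ring
        _ ≤ ((2 : ℝ) ^ N) ^ (e2 / 2) * (2 ^ N) ^ (1 / 2 + e2 / 2) :=
          mul_le_mul htwo (hn2 n hn) (by positivity) (by positivity)
        _ = ((2 : ℝ) ^ N) ^ (1 / 2 + e2) := by
          rw [← Real.rpow_add hR0]
          congr 1
          ring
    have hex : ∀ (n : ℕ) (i : Fin nT) (r : ℕ), ∃ W : ℝ → ℝ, Continuous W ∧ (∀ R, 0 ≤ W R) ∧ (n < n1 → r < 2 →
        (∀ R ∈ Icc ((2 : ℝ) ^ N / 2) (4 * 2 ^ N), ∀ c : ℝ × ℝ,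
          (∫ α in gd1, k0 (((2 : ℝ) ^ N * 2 ^ n) ^ (-(1 / 2) : ℝ)) α * ‖Sc (Hw H₀ w) (blk (n + r)) (b n i α) R α c‖) ^ (2 * J) ≤ W R) ∧
        ∫ R in Icc ((2 : ℝ) ^ N / 2) (4 * 2 ^ N), W R ≤ A * 2 ^ N * ((2 : ℝ) ^ (n + r)) ^ (3 * J - u : ℝ)) := by
      intro n i r
      by_cases h : n < n1 ∧ r < 2
      · obtain ⟨W, h1, h2, h3, h4⟩ := hW N (by omega) n i r h.2 (hnr n h.1 r h.2)
        exact ⟨W, h1, h2, fun _ _ => ⟨h3, h4⟩⟩
      · exact ⟨fun _ => 0, continuous_const, fun _ => le_rfl, fun h1 h2 => absurd ⟨h1, h2⟩ h⟩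
    choose W hWc hW0 hWp using hex
    obtain ⟨d, hd0, hd, hdd⟩ := hdil (2 ^ N) hbig
    have hβ : ∀ n : ℕ, (0 : ℝ) < ((2 : ℝ) ^ N * 2 ^ n) ^ (-(1 / 2) : ℝ) := fun n => by positivity
    set S : ℕ → ℝ → ℝ := fun n ρ => ∑ i : Fin nT, ∑ r ∈ Finset.range 2, ((2 : ℝ) ^ n) ^ (-(3 / 2) : ℝ) *
      W n i r ρ ^ ((1 : ℝ) / (2 * J)) with hS
    have hblock : ∀ n < n1, ∀ r ∈ Icc ((2 : ℝ) ^ N / 2) (4 * 2 ^ N), ∀ c' : ℝ × ℝ,
        ‖∑ k ∈ sqa (2 ^ n), ft (fun θ => r * (Hw H₀ w θ - (p.1 * cos θ + p.2 * sin θ))) k * ee (dt k c')‖ ≤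
          C * ((2 : ℝ) ^ N) ^ (1 / 2 : ℝ) * S n r + C := by
      intro n hn r hr c'
      have hr0 : 0 < r := lt_of_lt_of_le (by positivity) hr.1
      obtain ⟨c'', hc''⟩ := hty n p (2 ^ N) r hR1 hr (supp_mul6 hH hr0) c'
      refine hc''.trans (add_le_add ?_ le_rfl)
      rw [mul_assoc (C * ((2 : ℝ) ^ N) ^ (1 / 2 : ℝ))]
      refine mul_le_mul_of_nonneg_left ?_ (by positivity)
      rw [Finset.mul_sum]
      refine Finset.sum_le_sum fun i _ => ?_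
      rw [Finset.mul_sum]
      refine Finset.sum_le_sum fun r' hr' => ?_
      rw [Finset.mem_range] at hr'
      refine mul_le_mul_of_nonneg_left ?_ (by positivity)
      refine root_le hJ ?_ ((hWp n i r' hn hr').1 r hr c'')
      refine integral_nonneg fun α => mul_nonneg ?_ (norm_nonneg _)
      have := hβ n
      unfold k0
      positivity
    have hf : ∀ R ∈ Icc ((2 : ℝ) ^ N) (2 * 2 ^ N), ∀ c : ℝ × ℝ, |cntc (Hw H₀ w) c R - area (Hw H₀ w) * R ^ 2| ≤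
        ((2 : ℝ) ^ N) ^ (1 / 2 : ℝ) * (K₁ + C * (∑ n ∈ Finset.range n1, S n (R + d) + ∑ n ∈ Finset.range n1, S n (R - d))) := by
      intro R hR c
      have hfin := hdd n1 hn1s (fun n r => C * ((2 : ℝ) ^ N) ^ (1 / 2 : ℝ) * S n r + C) hblock R hR
        (c.1 + R * p.1, c.2 + R * p.2)
      rw [← Pool.Agent.Helper11.AD.cntc_shift (Hw H₀ w) p c R, ← Pool.Agent.Helper11.AD.area_shift (Hw H₀ w) p] at hfin
      rw [Bsum] at hfin
      refine hfin.trans ?_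
      have h1 : Cd * ((2 : ℝ) ^ N) ^ (1 - 1 / 2 : ℝ) ≤ ((2 : ℝ) ^ N) ^ (1 / 2 : ℝ) * |Cd| := by
        have e : (1 - 1 / 2 : ℝ) = 1 / 2 := by norm_num
        rw [e, mul_comm]
        exact mul_le_mul_of_nonneg_left (le_abs_self _) (by positivity)
      have h2 : (n1 : ℝ) * (2 * C) ≤ ((2 : ℝ) ^ N) ^ (1 / 2 : ℝ) * (2 * C * (2 / log 2)) := by
        have h3 : (n1 : ℝ) ≤ 2 / log 2 * ((2 : ℝ) ^ N) ^ (1 / 2 : ℝ) := by
          refine le_trans ?_ (nat_le6 N)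
          exact_mod_cast hn1N
        calc (n1 : ℝ) * (2 * C) ≤ (2 / log 2 * ((2 : ℝ) ^ N) ^ (1 / 2 : ℝ)) * (2 * C) :=
              mul_le_mul_of_nonneg_right h3 (by positivity)
          _ = _ := by ring
      rw [hK₁, mul_add, mul_add]
      linarith
    exact core hJ hu hu1 hA hC hK₁0 nT hq (2 ^ N) hR1 d hd0 hd n1 W hWc hW0 (fun n hn i r hr => (hWp n i r hn hr).2)
      (fun R c => |cntc (Hw H₀ w) c R - area (Hw H₀ w) * R ^ 2|) (fun _ _ => abs_nonneg _) hf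
  have hsm : ∀ N : ℕ, N ≤ N₁ + N₂ + N₃ → mom J (Hw H₀ w) (2 ^ N) ≤ ENNReal.ofReal (Cs ^ (2 * J) * ((2 : ℝ) ^ N) ^ (1 + J)) := by
    intro N hN
    have hR1 : (1 : ℝ) ≤ 2 ^ N := one_le_pow₀ (by norm_num)
    have h1 : mom J (Hw H₀ w) (2 ^ N) ≤ ∫⁻ _ in Icc ((2 : ℝ) ^ N) (2 * 2 ^ N), ENNReal.ofReal (Cs ^ (2 * J)) := by
      refine setLIntegral_mono' measurableSet_Icc fun R hR => ?_
      refine iSup_le fun c => ENNReal.ofReal_le_ofReal (pow_le_pow_left₀ (abs_nonneg _) (hsmall R (hR1.trans hR.1) (hR.2.trans ?_) c) _)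
      calc (2 : ℝ) * 2 ^ N = 2 ^ (N + 1) := by rw [pow_succ]; ring
        _ ≤ _ := pow_le_pow_right₀ (by norm_num) (by omega)
    refine h1.trans ?_
    rw [setLIntegral_const, Real.volume_Icc, ← ENNReal.ofReal_mul (by positivity)]
    apply ENNReal.ofReal_le_ofReal
    refine mul_le_mul_of_nonneg_left ?_ (by positivity)
    calc (2 : ℝ) * 2 ^ N - 2 ^ N = (2 ^ N) ^ 1 := by ring
      _ ≤ _ := pow_le_pow_right₀ hR1 (by omega)
  have hall : ∀ N : ℕ, mom J (Hw H₀ w) (2 ^ N) ≤ ENNReal.ofReal ((K₂ + Cs ^ (2 * J)) * ((2 : ℝ) ^ N) ^ (1 + J)) := by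
    intro N
    rcases le_total (N₁ + N₂ + N₃) N with h | h
    · refine (hbig N h).trans (ENNReal.ofReal_le_ofReal (mul_le_mul_of_nonneg_right ?_ (by positivity)))
      have : 0 ≤ Cs ^ (2 * J) := by positivity
      linarith
    · refine (hsm N h).trans (ENNReal.ofReal_le_ofReal (mul_le_mul_of_nonneg_right ?_ (by positivity)))
      linarith
  set K : ℝ := K₂ + Cs ^ (2 * J) with hK
  have hK0 : 0 ≤ K := by positivity
  refine ⟨K * (1 + 2 ^ (1 + J)), fun X hX => ?_⟩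
  obtain ⟨N, hN1, hN2⟩ := exists_nat_pow_near hX (one_lt_two)
  have hN2' : X ≤ 2 * 2 ^ N := by
    rw [pow_succ] at hN2
    linarith
  have hsub : Icc X (2 * X) ⊆ Icc ((2 : ℝ) ^ N) (2 * 2 ^ N) ∪ Icc ((2 : ℝ) ^ (N + 1)) (2 * 2 ^ (N + 1)) := by
    intro R hR
    have e : (2 : ℝ) ^ (N + 1) = 2 * 2 ^ N := by rw [pow_succ]; ring
    rcases le_total R (2 * 2 ^ N) with h | h
    · exact Or.inl ⟨hN1.trans hR.1, h⟩
    · refine Or.inr ⟨by rw [e]; exact h, ?_⟩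
      rw [e]
      linarith [hR.2]
  have hsum : mom J (Hw H₀ w) X ≤ mom J (Hw H₀ w) (2 ^ N) + mom J (Hw H₀ w) (2 ^ (N + 1)) := by
    unfold mom
    exact (lintegral_mono_set hsub).trans (lintegral_union_le _ _ _)
  refine hsum.trans ((add_le_add (hall N) (hall (N + 1))).trans ?_)
  rw [← ENNReal.ofReal_add (by positivity) (by positivity)]
  apply ENNReal.ofReal_le_ofReal
  have h1 : ((2 : ℝ) ^ N) ^ (1 + J) ≤ X ^ (1 + J) := pow_le_pow_left₀ (by positivity) hN1 _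
  have h2 : ((2 : ℝ) ^ (N + 1)) ^ (1 + J) ≤ 2 ^ (1 + J) * X ^ (1 + J) := by
    rw [← mul_pow]
    refine pow_le_pow_left₀ (by positivity) ?_ _
    rw [pow_succ]
    linarith
  calc K * ((2 : ℝ) ^ N) ^ (1 + J) + K * ((2 : ℝ) ^ (N + 1)) ^ (1 + J) ≤ K * X ^ (1 + J) + K * (2 ^ (1 + J) * X ^ (1 + J)) :=
        add_le_add (mul_le_mul_of_nonneg_left h1 hK0) (mul_le_mul_of_nonneg_left h2 hK0)
    _ = _ := by ring

end Pool.Agent.Helper90.MM
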